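import Pool.Agent.Run7.h668.Nine

/-!
# Toussaint's question: the sphere-of-influence graph of `n` points in the plane has at most `9 n` edges

For a finite set `S` of points of the Euclidean plane, `influence S x` is the distance from `x` to
the nearest other point of `S`, and `sphereOfInfluenceGraph S` joins two distinct points of `S` when
the open discs of these radii around them intersect.
-/

namespace Pool.Agent.Results.MP_402e48_co.NineN

open Metric

/-- The distance from `x` to the nearest other point of `S`. -/
noncomputable def influence (S : Finset (EuclideanSpace ℝ (Fin 2)))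
    (x : EuclideanSpace ℝ (Fin 2)) : ℝ :=
  infDist x ((S : Set (EuclideanSpace ℝ (Fin 2))) \ {x})

/-- The open sphere-of-influence graph of `S`: its vertices are the points of `S`, and two distinct
points are adjacent when the open discs around them whose radii are the distances to their nearest
neighbours intersect. -/
def sphereOfInfluenceGraph (S : Finset (EuclideanSpace ℝ (Fin 2))) : SimpleGraph S where
  Adj x y := x ≠ y ∧
    (ball (x : EuclideanSpace ℝ (Fin 2)) (influence S x) ∩
      ball (y : EuclideanSpace ℝ (Fin 2)) (influence S y)).Nonempty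
  symm := ⟨fun _ _ h => ⟨h.1.symm, by rw [Set.inter_comm]; exact h.2⟩⟩
  loopless := ⟨fun _ h => h.1 rfl⟩

theorem dist_sq (x y : EuclideanSpace ℝ (Fin 2)) :
    dist x y ^ 2 = (x 0 - y 0) ^ 2 + (x 1 - y 1) ^ 2 := by
  rw [EuclideanSpace.dist_eq, Real.sq_sqrt (Finset.sum_nonneg (fun i _ => sq_nonneg _)),
    Fin.sum_univ_two, Real.dist_eq, Real.dist_eq, sq_abs, sq_abs]

theorem influence_pos {S : Finset (EuclideanSpace ℝ (Fin 2))} (hS : 2 ≤ S.card)
    (x : EuclideanSpace ℝ (Fin 2)) : 0 < influence S x := by
  have hfin : ((S : Set (EuclideanSpace ℝ (Fin 2))) \ {x}).Finite :=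
    S.finite_toSet.subset Set.sdiff_subset
  have hne : ((S : Set (EuclideanSpace ℝ (Fin 2))) \ {x}).Nonempty := by
    obtain ⟨y, hy, hyx⟩ := Finset.exists_mem_ne (by omega : 1 < S.card) x
    exact ⟨y, hy, hyx⟩
  exact (hfin.isClosed.notMem_iff_infDist_pos hne).1 (fun h => h.2 rfl)

/-- **Toussaint's question, answered affirmatively.**  The open sphere-of-influence graph of every
set of `n ≥ 2` points in the plane has at most `9 n` edges. -/
theorem result (S : Finset (EuclideanSpace ℝ (Fin 2))) (hS : 2 ≤ S.card) :
    (sphereOfInfluenceGraph S).edgeSet.ncard ≤ 9 * S.card := by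
  classical
  have h := Run7.h668.mink_nine (ι := S) (fun i => (i : EuclideanSpace ℝ (Fin 2)) 0)
    (fun i => (i : EuclideanSpace ℝ (Fin 2)) 1) (fun i => influence S i)
    (fun i => influence_pos hS i)
    (by
      intro i j hij
      rw [← dist_sq]
      have h1 : influence S (i : EuclideanSpace ℝ (Fin 2)) ≤
          dist (i : EuclideanSpace ℝ (Fin 2)) j :=
        infDist_le_dist_of_mem ⟨j.2, fun h => hij (Subtype.ext h).symm⟩
      have h2 := influence_pos hS (i : EuclideanSpace ℝ (Fin 2))
      exact pow_le_pow_left₀ h2.le h1 2)
  rw [Fintype.card_coe] at h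
  refine le_trans ?_ h
  rw [← Set.ncard_coe_finset]
  refine Set.ncard_le_ncard_of_injOn (fun e => e.toFinset) ?_ ?_ (Finset.finite_toSet _)
  · intro e he
    induction e using Sym2.ind with
    | _ x y =>
      rw [SimpleGraph.mem_edgeSet] at he
      obtain ⟨hxy, z, hz1, hz2⟩ := he
      rw [Finset.mem_coe]
      simp only [Run7.h668.EdgesOff, Finset.mem_filter, Finset.mem_univ, true_and]
      refine ⟨x, y, hxy, by simp, ?_, ?_⟩
      · ext w
        simp
      · rw [← dist_sq]
        have h1 : dist (x : EuclideanSpace ℝ (Fin 2)) y < influence S x + influence S y := by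
          rw [mem_ball] at hz1 hz2
          calc dist (x : EuclideanSpace ℝ (Fin 2)) y ≤ dist (x : EuclideanSpace ℝ (Fin 2)) z +
                dist z y := dist_triangle _ _ _
            _ = dist z x + dist z y := by
              rw [dist_comm (x : EuclideanSpace ℝ (Fin 2)) z]
            _ < influence S x + influence S y := by linarith
        exact pow_lt_pow_left₀ h1 dist_nonneg two_ne_zero
  · intro e _ e' _ hee
    apply Sym2.ext
    intro z
    rw [← Sym2.mem_toFinset, ← Sym2.mem_toFinset]
    simp only at hee
    rw [hee]

end Pool.Agent.Results.MP_402e48_co.NineN
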